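import Pool.Agent.H7.GF.Targets1

/-!
Modules CONJ, CONV, AN1 of the board gf_modules (MP_cd65c5_nt).
-/

set_option autoImplicit false

namespace Pool.Agent.H78.GF

open Polynomial NumberField Module Pool.Agent.H7.GF

/-- coefficients of the minimal polynomial from the sizes of the conjugates -/
theorem conj : T_CONJ := by
  intro n F _ _ θ T hn hd hT hw j hj
  have hint : IsIntegral ℤ (θ : F) := RingOfIntegers.isIntegral_coe θ
  have h1 : minpoly ℚ (θ : F) = (minpoly ℤ θ).map (algebraMap ℤ ℚ) := by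
    rw [minpoly.isIntegrallyClosed_eq_field_fractions' ℚ hint, RingOfIntegers.minpoly_coe]
  have hmon : (minpoly ℤ θ).Monic := minpoly.monic (RingOfIntegers.isIntegral θ)
  have hroots : ∀ z ∈ (map (algebraMap ℚ ℂ) (minpoly ℚ (θ : F))).roots, ‖z‖ ≤ T := by
    intro z hz
    classical
    rw [← Multiset.mem_toFinset] at hz
    obtain ⟨φ, rfl⟩ := (NumberField.Embeddings.range_eval_eq_rootSet_minpoly F ℂ (θ : F)).symm.subset hz
    exact hw (InfinitePlace.mk φ)
  have h2 := coeff_le_of_roots_le (f := algebraMap ℚ ℂ) (n - j)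
    (minpoly.monic (Algebra.IsSeparable.isIntegral ℚ (θ : F))) (IsAlgClosed.splits _) hroots
  have h3 : (minpoly ℚ (θ : F)).natDegree = n := by
    rw [h1, hmon.natDegree_map]; exact hd
  rw [h3, coeff_map, h1, coeff_map, Nat.sub_sub_self hj] at h2
  have h4 : ‖(algebraMap ℚ ℂ) ((algebraMap ℤ ℚ) ((minpoly ℤ θ).coeff (n - j)))‖ =
      |((minpoly ℤ θ).coeff (n - j) : ℝ)| := by
    simp
  rw [h4] at h2
  refine h2.trans ?_
  rw [mul_comm]
  refine mul_le_mul_of_nonneg_right ?_ (pow_nonneg hT j)
  have h5 : n.choose (n - j) ≤ 2 ^ n := by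
    rw [← Nat.sum_range_choose]
    exact Finset.single_le_sum (f := fun i => n.choose i) (fun _ _ => Nat.zero_le _)
      (by simp)
  exact_mod_cast h5

open Classical in
/-- number of distinct roots and the index, over a field -/
lemma conv_aux {F k : Type} [Field F] [Field k] [IsAlgClosed k] (φ : F →+* k) (f : F[X])
    (hf : f.Monic) (N K : ℕ) (hN : (f.map φ).roots.toFinset.card ≤ N) (hK : N + K ≤ f.natDegree) :
    IXp K f := by
  classical
  set G := EuclideanDomain.gcd f (derivative f) with hG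
  have hf0 : f ≠ 0 := hf.ne_zero
  have hG0 : G ≠ 0 := fun h => hf0 (EuclideanDomain.gcd_eq_zero_iff.1 h).1
  obtain ⟨h, hh⟩ := EuclideanDomain.gcd_dvd_left f (derivative f)
  have hh0 : h ≠ 0 := by
    rintro rfl
    exact hf0 (by rw [hh, mul_zero])
  have hfk0 : f.map φ ≠ 0 := (Polynomial.map_ne_zero_iff φ.injective).2 hf0
  have hGk0 : G.map φ ≠ 0 := (Polynomial.map_ne_zero_iff φ.injective).2 hG0
  have hhk0 : h.map φ ≠ 0 := (Polynomial.map_ne_zero_iff φ.injective).2 hh0
  have hmul : f.map φ = G.map φ * h.map φ := by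
    conv_lhs => rw [hh]
    rw [Polynomial.map_mul]
  have hGk : G.map φ = EuclideanDomain.gcd (f.map φ) (derivative (f.map φ)) := by
    rw [hG, ← gcd_map, derivative_map]
  -- the roots of `h` are simple
  have hcount : ∀ r, (h.map φ).rootMultiplicity r ≤ 1 := by
    intro r
    have h1 : (f.map φ).rootMultiplicity r = (G.map φ).rootMultiplicity r +
        (h.map φ).rootMultiplicity r := by
      conv_lhs => rw [hmul]
      exact rootMultiplicity_mul (mul_ne_zero hGk0 hhk0)
    have h2 : (X - C r) ^ ((f.map φ).rootMultiplicity r - 1) ∣ G.map φ := by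
      rw [hGk]
      refine EuclideanDomain.dvd_gcd ?_ ?_
      · exact (pow_dvd_pow _ (Nat.sub_le _ _)).trans ((f.map φ).pow_rootMultiplicity_dvd r)
      · exact pow_sub_one_dvd_derivative_of_pow_dvd ((f.map φ).pow_rootMultiplicity_dvd r)
    have h3 := (le_rootMultiplicity_iff hGk0).2 h2
    omega
  have hnodup : (h.map φ).roots.Nodup := by
    rw [Multiset.nodup_iff_count_le_one]
    intro r
    rw [count_roots]
    exact hcount r
  have hcard : h.natDegree = (h.map φ).roots.toFinset.card := by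
    rw [Multiset.toFinset_card_of_nodup hnodup, ← (IsAlgClosed.splits (h.map φ)).natDegree_eq_card_roots,
      natDegree_map]
  have hsub : (h.map φ).roots.toFinset ⊆ (f.map φ).roots.toFinset := by
    intro r hr
    rw [Multiset.mem_toFinset] at hr ⊢
    rw [mem_roots hhk0] at hr
    rw [mem_roots hfk0, hmul, IsRoot.def, eval_mul, hr.eq_zero, mul_zero]
  have hle : h.natDegree ≤ N := by
    rw [hcard]
    exact (Finset.card_le_card hsub).trans hN
  have hdeg : f.natDegree = G.natDegree + h.natDegree := by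
    conv_lhs => rw [hh]
    exact natDegree_mul hG0 hh0
  refine ⟨G * C (G.leadingCoeff)⁻¹, monic_mul_leadingCoeff_inv hG0, ?_, ?_, ?_⟩
  · rw [natDegree_mul_C (inv_ne_zero (leadingCoeff_ne_zero.2 hG0))]
    omega
  · rw [mul_comm, C_mul_dvd (inv_ne_zero (leadingCoeff_ne_zero.2 hG0))]
    exact EuclideanDomain.gcd_dvd_left _ _
  · rw [mul_comm, C_mul_dvd (inv_ne_zero (leadingCoeff_ne_zero.2 hG0))]
    exact EuclideanDomain.gcd_dvd_right _ _

/-- number of distinct roots and the index -/
theorem conv : T_CONV := by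
  intro p _ f k hf _ h
  classical
  refine conv_aux (algebraMap (ZMod p) (AlgebraicClosure (ZMod p))) (toZ p f)
    (hf.map _) _ k le_rfl ?_
  have h1 : ((toZ p f).rootSet (AlgebraicClosure (ZMod p))).ncard =
      ((toZ p f).map (algebraMap (ZMod p) (AlgebraicClosure (ZMod p)))).roots.toFinset.card := by
    rw [rootSet, Set.ncard_coe_finset, aroots]
  rw [← h1]
  have h2 : (toZ p f).natDegree = f.natDegree := hf.natDegree_map _
  rw [h2]
  exact h

/-- the index at the primes dividing the discriminant -/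
theorem an1 (hVP : T_VP) (hROOTS : T_ROOTS) (hCONV : T_CONV) : T_AN1 := by
  intro p _ F _ _ θ h1 h2
  have h3 := (hVP p F).2.1 h2
  obtain ⟨h4, h5⟩ := hROOTS p F θ h1
  refine ⟨by omega, ?_⟩
  refine hCONV p (minpoly ℤ θ) _ (minpoly.monic (RingOfIntegers.isIntegral θ)) (by omega) (by omega)

end Pool.Agent.H78.GF
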