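import Pool.Agent.H7.GF.Targets2

/-!
Module MAJ of the board gf_modules (MP_cd65c5_nt).
-/

set_option autoImplicit false

namespace Pool.Agent.H78.GF

open Polynomial NumberField Module Pool.Agent.H7.GF

section

variable {F : Type} [Field F]

lemma sq_dvd [PerfectField F] {f π : F[X]} (hπ : Irreducible π) (h1 : π ∣ f)
    (h2 : π ∣ derivative f) : π ^ 2 ∣ f := by
  obtain ⟨h, rfl⟩ := h1
  rw [derivative_mul] at h2
  have h3 : π ∣ derivative π * h := (dvd_add_left (dvd_mul_right π (derivative h))).1 h2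
  have h4 : IsCoprime π (derivative π) := PerfectField.separable_of_irreducible hπ
  have h5 : π ∣ h := h4.dvd_of_dvd_mul_left h3
  rw [pow_two]
  exact mul_dvd_mul_left π h5

lemma cube_dvd (h2 : (2 : F) ≠ 0) {f : F[X]} {r : F} (h : (X - C r) ^ 2 ∣ f)
    (h' : (X - C r) ^ 2 ∣ derivative f) : (X - C r) ^ 3 ∣ f := by
  obtain ⟨g, rfl⟩ := h
  have h3 : derivative ((X - C r) ^ 2 * g) = (X - C r) * (2 * g + (X - C r) * derivative g) := by
    rw [derivative_mul, derivative_X_sub_C_sq, show (C 2 : F[X]) = 2 from rfl]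
    ring
  rw [h3, pow_two] at h'
  have h4 : (X - C r) ∣ 2 * g + (X - C r) * derivative g :=
    (mul_dvd_mul_iff_left (X_sub_C_ne_zero r)).1 h'
  have h5 : (X - C r) ∣ 2 * g := (dvd_add_left (dvd_mul_right _ _)).1 h4
  have h6 : (X - C r) ∣ g := by
    have h7 : (2 : F[X]) = C 2 := rfl
    rw [h7, dvd_C_mul h2] at h5
    exact h5
  rw [pow_succ]
  exact mul_dvd_mul_left _ h6

lemma monic_two {π : F[X]} (hm : π.Monic) (hd : π.natDegree = 2) :
    π = X ^ 2 + C (π.coeff 1) * X + C (π.coeff 0) := by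
  have h1 := eq_quadratic_of_degree_le_two (p := π) (by
    rw [degree_eq_natDegree hm.ne_zero, hd]; rfl)
  have h2 : π.coeff 2 = 1 := by
    have := hm.coeff_natDegree
    rwa [hd] at this
  rw [h2, C_1, one_mul] at h1
  exact h1

/-- factorisation types of index at least two, over a perfect field with `2 ≠ 0` -/
lemma maj_aux [PerfectField F] (h2 : (2 : F) ≠ 0) (f : F[X]) (h : IXp 2 f) :
    (∃ r : F, (X - C r) ^ 3 ∣ f) ∨ (∃ u v : F, (X ^ 2 + C u * X + C v) ^ 2 ∣ f) ∨
    ∃ q : F[X], q.Monic ∧ 3 ≤ q.natDegree ∧ q ^ 2 ∣ f := by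
  obtain ⟨g, hg, hg2, hgf, hgf'⟩ := h
  have key : ∀ g' : F[X], 1 ≤ g'.natDegree → g' ∣ g →
      ((∃ u v : F, (X ^ 2 + C u * X + C v) ^ 2 ∣ f) ∨
        ∃ q : F[X], q.Monic ∧ 3 ≤ q.natDegree ∧ q ^ 2 ∣ f) ∨ ∃ r : F, (X - C r) ∣ g' ∧
          (X - C r) ^ 2 ∣ f := by
    intro g' hg' hdvd
    have hnu : ¬ IsUnit g' := fun hu => by
      have := natDegree_eq_zero_of_isUnit hu
      omega
    obtain ⟨π, hπm, hπi, hπd⟩ := exists_monic_irreducible_factor g' hnu
    have hsq : π ^ 2 ∣ f := sq_dvd hπi ((hπd.trans hdvd).trans hgf) ((hπd.trans hdvd).trans hgf')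
    have hpos : 0 < π.natDegree := hπi.natDegree_pos
    rcases Nat.lt_or_ge 2 π.natDegree with h3 | h3
    · exact Or.inl (Or.inr ⟨π, hπm, h3, hsq⟩)
    · rcases Nat.lt_or_ge π.natDegree 2 with h4 | h4
      · have h5 : π.natDegree = 1 := by omega
        have h6 := hπm.eq_X_add_C h5
        have h7 : X - C (-π.coeff 0) = π := by
          rw [C_neg, sub_neg_eq_add]; exact h6.symm
        exact Or.inr ⟨-π.coeff 0, by rw [h7]; exact hπd, by rw [h7]; exact hsq⟩
      · have h5 : π.natDegree = 2 := by omega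
        have h6 := monic_two hπm h5
        exact Or.inl (Or.inl ⟨π.coeff 1, π.coeff 0, by rw [← h6]; exact hsq⟩)
  rcases key g (by omega) dvd_rfl with h | ⟨r, hr, hrf⟩
  · exact Or.inr h
  obtain ⟨g1, hg1⟩ := hr
  have hdeg : 1 ≤ g1.natDegree := by
    have hg10 : g1 ≠ 0 := by
      rintro rfl
      rw [mul_zero] at hg1
      exact hg.ne_zero hg1
    have := natDegree_mul (X_sub_C_ne_zero r) hg10
    rw [← hg1, natDegree_X_sub_C] at this
    omega
  rcases key g1 hdeg ⟨X - C r, by rw [hg1, mul_comm]⟩ with h | ⟨s, hs, hsf⟩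
  · exact Or.inr h
  by_cases hrs : r = s
  · subst hrs
    left
    refine ⟨r, ?_⟩
    have h3 : (X - C r) ^ 2 ∣ g := by
      rw [hg1, pow_two]
      exact mul_dvd_mul_left _ hs
    exact cube_dvd h2 (h3.trans hgf) (h3.trans hgf')
  · right; left
    have hcop : IsCoprime (X - C r) (X - C s) := by
      refine isCoprime_X_sub_C_of_isUnit_sub ?_
      exact (sub_ne_zero.2 hrs).isUnit
    have h3 : (X - C r) ^ 2 * (X - C s) ^ 2 ∣ f := (hcop.pow).mul_dvd hrf hsf
    refine ⟨-(r + s), r * s, ?_⟩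
    have h4 : X ^ 2 + C (-(r + s)) * X + C (r * s) = (X - C r) * (X - C s) := by
      rw [C_neg, C_add, C_mul]; ring
    rw [h4, mul_pow]
    exact h3

end

/-- factorisation types of index at least two -/
theorem maj : T_MAJ := by
  intro p _ f hf hp h
  have hle : 2 ≤ f.natDegree := by
    obtain ⟨g, -, hg2, hgf, -⟩ := h
    exact hg2.trans (natDegree_le_of_dvd hgf hf.ne_zero)
  refine maj_aux ?_ f h
  intro h2
  have h3 : ((2 : ℕ) : ZMod p) = 0 := by exact_mod_cast h2
  rw [ZMod.natCast_eq_zero_iff] at h3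
  have := Nat.le_of_dvd (by norm_num) h3
  omega

end Pool.Agent.H78.GF
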