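import Pool.Agent.H7.GF.Targets2
import Pool.Agent.H7.GF.Targets3
import Pool.Agent.H7.GF.Basic

/-!
Module MAJ4 of the board gf_modules (MP_cd65c5_nt).
-/

set_option autoImplicit false

namespace Pool.Agent.H78.GF

open Polynomial NumberField Module Pool.Agent.H7.GF

lemma coeffs_quartic {R : Type} [CommRing R] (c3 c2 c1 c0 : R) :
    (X ^ 4 + C c3 * X ^ 3 + C c2 * X ^ 2 + C c1 * X + C c0 : R[X]).coeff 0 = c0 ∧
    (X ^ 4 + C c3 * X ^ 3 + C c2 * X ^ 2 + C c1 * X + C c0 : R[X]).coeff 1 = c1 ∧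
    (X ^ 4 + C c3 * X ^ 3 + C c2 * X ^ 2 + C c1 * X + C c0 : R[X]).coeff 2 = c2 ∧
    (X ^ 4 + C c3 * X ^ 3 + C c2 * X ^ 2 + C c1 * X + C c0 : R[X]).coeff 3 = c3 := by
  refine ⟨?_, ?_, ?_, ?_⟩ <;> simp [coeff_X, coeff_X_pow, coeff_C]

/-- factorisation types of quartics -/
theorem maj4 (hMAJ : T_MAJ) : T_MAJ4 := by
  intro p _ hp b a hb h
  have hmon := pol_monic b a
  have hdeg := pol_natDegree b a
  have hc0 : (pol b a).coeff 0 = b := pol_coeff_zero b a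
  have hc1 : (pol b a).coeff 1 = a 0 := pol_coeff_succ b a 0
  have hc2 : (pol b a).coeff 2 = a 1 := pol_coeff_succ b a 1
  have hc3 : (pol b a).coeff 3 = a 2 := pol_coeff_succ b a 2
  rcases hMAJ p (pol b a) hmon (by rw [hdeg]; omega) h with ⟨r, hr⟩ | ⟨u, v, huv⟩ | ⟨q, hq, hq3, hqd⟩
  · left
    obtain ⟨g, hg⟩ := hr
    have hgm : g.Monic := ((monic_X_sub_C r).pow 3).of_mul_monic_left (hg ▸ hmon)
    have hgd : g.natDegree = 1 := by
      have h1 := ((monic_X_sub_C r).pow 3).natDegree_mul hgm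
      rw [← hg, hdeg, natDegree_pow, natDegree_X_sub_C] at h1
      omega
    have hg1 := hgm.eq_X_add_C hgd
    set s := g.coeff 0 with hs
    have hexp : (X - C r) ^ 3 * g = X ^ 4 + C (s - 3 * r) * X ^ 3 + C (3 * r ^ 2 - 3 * r * s) * X ^ 2
        + C (3 * r ^ 2 * s - r ^ 3) * X + C (-(r ^ 3 * s)) := by
      rw [hg1]
      simp only [map_sub, map_mul, map_pow, map_neg, show (C 3 : (ZMod p)[X]) = 3 from rfl]
      ring
    rw [hexp] at hg
    obtain ⟨f0, f1, f2, f3⟩ := coeffs_quartic (s - 3 * r) (3 * r ^ 2 - 3 * r * s)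
      (3 * r ^ 2 * s - r ^ 3) (-(r ^ 3 * s))
    have e0 : b = -(r ^ 3 * s) := by
      rw [← hc0, hg]; exact f0
    have e1 : a 0 = 3 * r ^ 2 * s - r ^ 3 := by
      rw [← hc1, hg]; exact f1
    have e2 : a 1 = 3 * r ^ 2 - 3 * r * s := by
      rw [← hc2, hg]; exact f2
    have e3 : a 2 = s - 3 * r := by
      rw [← hc3, hg]; exact f3
    have hr0 : r ≠ 0 := by
      rintro rfl
      exact hb (by rw [e0]; ring)
    have hs' : s = -(b * r⁻¹ ^ 3) := by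
      rw [e0]; field_simp
    have hmem : Units.mk0 r hr0 ∈ {r : (ZMod p)ˣ | a 2 = -(3 * (r : ZMod p) + b * ((r⁻¹ : (ZMod p)ˣ) : ZMod p) ^ 3) ∧
        a 1 = 3 * (r : ZMod p) ^ 2 + 3 * b * ((r⁻¹ : (ZMod p)ˣ) : ZMod p) ^ 2 ∧
        a 0 = -((r : ZMod p) ^ 3 + 3 * b * ((r⁻¹ : (ZMod p)ˣ) : ZMod p))} := by
      simp only [Set.mem_ofPred_eq, Units.val_mk0, Units.val_inv_eq_inv_val]
      refine ⟨?_, ?_, ?_⟩
      · rw [e3, hs']; ring
      · rw [e2, hs']; field_simp; ring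
      · rw [e1, hs']; field_simp; ring
    have h1 : 0 < {r : (ZMod p)ˣ | a 2 = -(3 * (r : ZMod p) + b * ((r⁻¹ : (ZMod p)ˣ) : ZMod p) ^ 3) ∧
        a 1 = 3 * (r : ZMod p) ^ 2 + 3 * b * ((r⁻¹ : (ZMod p)ˣ) : ZMod p) ^ 2 ∧
        a 0 = -((r : ZMod p) ^ 3 + 3 * b * ((r⁻¹ : (ZMod p)ˣ) : ZMod p))}.ncard :=
      (Set.ncard_pos (Set.toFinite _)).2 ⟨_, hmem⟩
    unfold WB
    exact_mod_cast h1
  · right
    obtain ⟨g, hg⟩ := huv
    have hqm : (X ^ 2 + C u * X + C v : (ZMod p)[X]).Monic := by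
      monicity!
    have hqd : (X ^ 2 + C u * X + C v : (ZMod p)[X]).natDegree = 2 := by
      compute_degree!
    have hgm : g.Monic := (hqm.pow 2).of_mul_monic_left (hg ▸ hmon)
    have hgd : g.natDegree = 0 := by
      have h1 := (hqm.pow 2).natDegree_mul hgm
      rw [← hg, hdeg, natDegree_pow, hqd] at h1
      omega
    have hg1 : g = 1 := hgm.natDegree_eq_zero.1 hgd
    rw [hg1, mul_one] at hg
    have hexp : (X ^ 2 + C u * X + C v : (ZMod p)[X]) ^ 2 = X ^ 4 + C (2 * u) * X ^ 3 +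
        C (u ^ 2 + 2 * v) * X ^ 2 + C (2 * u * v) * X + C (v ^ 2) := by
      simp only [map_mul, map_pow, map_add, show (C 2 : (ZMod p)[X]) = 2 from rfl]
      ring
    rw [hexp] at hg
    obtain ⟨f0, f1, f2, f3⟩ := coeffs_quartic (2 * u) (u ^ 2 + 2 * v) (2 * u * v) (v ^ 2)
    have e0 : b = v ^ 2 := by
      rw [← hc0, hg]; exact f0
    have e1 : a 0 = 2 * u * v := by
      rw [← hc1, hg]; exact f1
    have e2 : a 1 = u ^ 2 + 2 * v := by
      rw [← hc2, hg]; exact f2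
    have e3 : a 2 = 2 * u := by
      rw [← hc3, hg]; exact f3
    refine ⟨v, e0.symm, ?_⟩
    have hmem : u ∈ {u : ZMod p | a 2 = 2 * u ∧ a 1 = u ^ 2 + 2 * v ∧ a 0 = 2 * u * v} :=
      ⟨e3, e2, e1⟩
    have h1 : 0 < {u : ZMod p | a 2 = 2 * u ∧ a 1 = u ^ 2 + 2 * v ∧ a 0 = 2 * u * v}.ncard :=
      (Set.ncard_pos (Set.toFinite _)).2 ⟨_, hmem⟩
    unfold WA
    exact_mod_cast h1
  · exfalso
    have h1 := natDegree_le_of_dvd hqd hmon.ne_zero
    rw [hdeg, natDegree_pow] at h1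
    omega

end Pool.Agent.H78.GF
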