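import Pool.Agent.H7.GF.Targets1

/-!
Module ROOTS of the board gf_modules (MP_cd65c5_nt).
-/

set_option autoImplicit false

namespace Pool.Agent.H78.GF

open Polynomial NumberField Module Pool.Agent.H7.GF

/-- homomorphisms to an algebraically closed field extend along integral extensions -/
lemma lift_aux {A B k : Type} [CommRing A] [CommRing B] [Algebra A B] [Algebra.IsIntegral A B]
    [Field k] [IsAlgClosed k] (φ : A →+* k) (hφ : RingHom.ker (algebraMap A B) ≤ RingHom.ker φ) :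
    ∃ ψ : B →+* k, ∀ a, ψ (algebraMap A B a) = φ a := by
  set q := RingHom.ker φ with hq
  haveI hqp : q.IsPrime := RingHom.ker_isPrime φ
  obtain ⟨P, -, hPp, hP⟩ := Ideal.exists_ideal_over_prime_of_isIntegral q (⊥ : Ideal B) (by
    intro a ha
    exact hφ (by simpa using ha))
  haveI := hPp
  haveI hlo : P.LiesOver q := ⟨hP.symm⟩
  letI alg : Algebra (A ⧸ q) k := (Ideal.Quotient.lift q φ (fun a ha => ha)).toAlgebra
  have hinj : Function.Injective (algebraMap (A ⧸ q) k) := by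
    rw [injective_iff_map_eq_zero]
    intro x hx
    obtain ⟨a, rfl⟩ := Ideal.Quotient.mk_surjective x
    have : φ a = 0 := hx
    exact Ideal.Quotient.eq_zero_iff_mem.2 this
  haveI : FaithfulSMul (A ⧸ q) k := (faithfulSMul_iff_algebraMap_injective _ _).2 hinj
  haveI : Algebra.IsIntegral (A ⧸ q) (B ⧸ P) := by
    refine ⟨fun x => ?_⟩
    obtain ⟨b, rfl⟩ := Ideal.Quotient.mk_surjective x
    obtain ⟨g, hg, hg0⟩ := Algebra.IsIntegral.isIntegral (R := A) b
    refine ⟨g.map (Ideal.Quotient.mk q), hg.map _, ?_⟩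
    rw [eval₂_map]
    have h1 : (algebraMap (A ⧸ q) (B ⧸ P)).comp (Ideal.Quotient.mk q) =
        (Ideal.Quotient.mk P).comp (algebraMap A B) := by
      ext a; rfl
    rw [h1, ← hom_eval₂, hg0, map_zero]
  let L : (B ⧸ P) →ₐ[A ⧸ q] k := IsAlgClosed.lift
  refine ⟨L.toRingHom.comp (Ideal.Quotient.mk P), fun a => ?_⟩
  have h2 : Ideal.Quotient.mk P (algebraMap A B a) =
      algebraMap (A ⧸ q) (B ⧸ P) (Ideal.Quotient.mk q a) := rfl
  have h3 : L (Ideal.Quotient.mk P (algebraMap A B a)) = φ a := by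
    rw [h2, L.commutes]
    rfl
  exact h3

/-- homomorphisms from the ring of integers to a field of positive characteristic: finiteness -/
lemma finite_homs (F k : Type) [Field F] [NumberField F] [Field k] :
    Finite (𝓞 F →+* k) := by
  classical
  let b := Module.Free.chooseBasis ℤ (𝓞 F)
  let S : Module.Free.ChooseBasisIndex ℤ (𝓞 F) → Finset k := fun i =>
    ((minpoly ℤ (b i)).map (Int.castRingHom k)).roots.toFinset
  have hmem : ∀ (χ : 𝓞 F →+* k) i, χ (b i) ∈ S i := by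
    intro χ i
    have hmon : (minpoly ℤ (b i)).Monic := minpoly.monic (RingOfIntegers.isIntegral _)
    rw [Multiset.mem_toFinset, mem_roots (hmon.map _).ne_zero, IsRoot.def, eval_map]
    have h1 : (Int.castRingHom k) = χ.comp (algebraMap ℤ (𝓞 F)) := RingHom.ext_int _ _
    rw [h1, ← hom_eval₂]
    have h2 : eval₂ (algebraMap ℤ (𝓞 F)) (b i) (minpoly ℤ (b i)) = 0 := minpoly.aeval ℤ (b i)
    rw [h2, map_zero]
  let f : (𝓞 F →+* k) → ∀ i, S i := fun χ i => ⟨χ (b i), hmem χ i⟩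
  refine Finite.of_injective f ?_
  intro χ χ' h
  have h1 : ∀ i, χ (b i) = χ' (b i) := fun i => congrArg Subtype.val (congrFun h i)
  have h2 : (χ.toAddMonoidHom.toIntLinearMap) = (χ'.toAddMonoidHom.toIntLinearMap) :=
    b.ext h1
  ext x
  exact congrArg (fun g => g x) h2

/-- roots modulo `p` come from homomorphisms -/
lemma exists_hom (p : ℕ) [Fact p.Prime] (F : Type) [Field F] [NumberField F] (θ : 𝓞 F)
    (ρ : AlgebraicClosure (ZMod p)) (hρ : aeval ρ (toZ p (minpoly ℤ θ)) = 0) :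
    ∃ χ : 𝓞 F →+* AlgebraicClosure (ZMod p), χ θ = ρ := by
  letI alg : Algebra ℤ[X] (𝓞 F) := (aeval (R := ℤ) θ).toRingHom.toAlgebra
  have hst : IsScalarTower ℤ ℤ[X] (𝓞 F) := IsScalarTower.of_algebraMap_eq' (RingHom.ext_int _ _)
  haveI : Algebra.IsIntegral ℤ (𝓞 F) := ⟨fun x => RingOfIntegers.isIntegral x⟩
  haveI : Algebra.IsIntegral ℤ[X] (𝓞 F) := Algebra.IsIntegral.tower_top (R := ℤ)
  let φ : ℤ[X] →+* AlgebraicClosure (ZMod p) := eval₂RingHom (Int.castRingHom _) ρ
  have hφ0 : φ (minpoly ℤ θ) = 0 := by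
    unfold Pool.Agent.H7.GF.toZ at hρ
    rw [aeval_def, eval₂_map] at hρ
    have h1 : (algebraMap (ZMod p) (AlgebraicClosure (ZMod p))).comp (Int.castRingHom (ZMod p)) =
        Int.castRingHom _ := RingHom.ext_int _ _
    rw [h1] at hρ
    exact hρ
  obtain ⟨ψ, hψ⟩ := lift_aux (A := ℤ[X]) (B := 𝓞 F) φ (by
    intro g hg
    have h1 : aeval θ g = 0 := hg
    obtain ⟨h, rfl⟩ := minpoly.isIntegrallyClosed_dvd (RingOfIntegers.isIntegral θ) h1
    rw [RingHom.mem_ker, map_mul, hφ0, zero_mul])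
  refine ⟨ψ, ?_⟩
  have h2 := hψ X
  have h3 : algebraMap ℤ[X] (𝓞 F) X = θ := by
    show aeval θ X = θ
    exact aeval_X θ
  rw [h3] at h2
  rw [h2]
  show eval₂ (Int.castRingHom _) ρ X = ρ
  exact eval₂_X _ _

/-- roots modulo `p` come from homomorphisms; there is at least one -/
theorem roots : T_ROOTS := by
  intro p _ F _ _ θ h
  haveI := finite_homs F (AlgebraicClosure (ZMod p))
  have hmon : (minpoly ℤ θ).Monic := minpoly.monic (RingOfIntegers.isIntegral θ)
  have hmonZ : (toZ p (minpoly ℤ θ)).Monic := hmon.map _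
  constructor
  · have h1 : (toZ p (minpoly ℤ θ)).rootSet (AlgebraicClosure (ZMod p)) ⊆
        (fun χ : 𝓞 F →+* AlgebraicClosure (ZMod p) => χ θ) '' Set.univ := by
      intro ρ hρ
      obtain ⟨χ, hχ⟩ := exists_hom p F θ ρ ((mem_rootSet.1 hρ).2)
      exact ⟨χ, trivial, hχ⟩
    have h2 := Set.ncard_le_ncard h1 (Set.toFinite _)
    refine h2.trans ?_
    refine (Set.ncard_image_le (Set.toFinite _)).trans ?_
    rw [Set.ncard_univ, Hp]
  · have hdeg : (toZ p (minpoly ℤ θ)).degree ≠ 0 := by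
      have h1 : 0 < (toZ p (minpoly ℤ θ)).natDegree := by
        unfold Pool.Agent.H7.GF.toZ
        rw [hmon.natDegree_map, ← h]
        exact finrank_pos
      exact (natDegree_pos_iff_degree_pos.1 h1).ne'
    obtain ⟨ρ, hρ⟩ := IsAlgClosed.exists_aeval_eq_zero (AlgebraicClosure (ZMod p))
      (toZ p (minpoly ℤ θ)) hdeg
    obtain ⟨χ, -⟩ := exists_hom p F θ ρ hρ
    haveI : Nonempty (𝓞 F →+* AlgebraicClosure (ZMod p)) := ⟨χ⟩
    exact Nat.card_pos

end Pool.Agent.H78.GF
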