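import Pool.Agent.H7.GF.Targets1

/-!
Module STR of the board gf_modules (MP_cd65c5_nt): the structure theorem.
-/

set_option autoImplicit false

namespace Pool.Agent.H78.GF

open Polynomial NumberField Module Pool.Agent.H7.GF

lemma minpolyQ (K : Type) [Field K] [NumberField K] (α : 𝓞 K) :
    minpoly ℚ (α : K) = toQ (minpoly ℤ α) := by
  rw [minpoly.isIntegrallyClosed_eq_field_fractions' ℚ (RingOfIntegers.isIntegral_coe α),
    RingOfIntegers.minpoly_coe]
  rfl

lemma adjoin_top (K : Type) [Field K] [NumberField K] (hK : NoInt K) (α : 𝓞 K)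
    (hα : ∀ z : ℤ, α ≠ (z : 𝓞 K)) : IntermediateField.adjoin ℚ {(α : K)} = ⊤ := by
  rcases hK (IntermediateField.adjoin ℚ {(α : K)}) with h | h
  · exfalso
    have h1 : (α : K) ∈ (⊥ : IntermediateField ℚ K) := by
      rw [← h]; exact IntermediateField.mem_adjoin_simple_self ℚ (α : K)
    rw [IntermediateField.mem_bot] at h1
    obtain ⟨x, hx⟩ := h1
    have h2 : IsIntegral ℤ x := by
      have h3 : IsIntegral ℤ (algebraMap ℚ K x) := by
        rw [hx]; exact RingOfIntegers.isIntegral_coe α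
      exact (isIntegral_algebraMap_iff (algebraMap ℚ K).injective).1 h3
    obtain ⟨z, hz⟩ := IsIntegrallyClosed.isIntegral_iff.1 h2
    refine hα z ?_
    apply RingOfIntegers.ext
    have h4 : ((z : 𝓞 K) : K) = (z : K) := by simp
    rw [h4, ← hx, ← hz]
    simp
  · exact h

lemma natDegree_eq (K : Type) [Field K] [NumberField K] (hK : NoInt K) (α : 𝓞 K)
    (hα : ∀ z : ℤ, α ≠ (z : 𝓞 K)) : (minpoly ℤ α).natDegree = finrank ℚ K := by
  have h1 := adjoin_top K hK α hα
  have h2 : finrank ℚ (IntermediateField.adjoin ℚ {(α : K)}) = (minpoly ℚ (α : K)).natDegree :=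
    IntermediateField.adjoin.finrank (Algebra.IsIntegral.isIntegral _)
  rw [h1, IntermediateField.finrank_top', minpolyQ] at h2
  rw [h2]
  exact ((minpoly.monic (RingOfIntegers.isIntegral α)).natDegree_map _).symm

lemma trace_coeff (K : Type) [Field K] [NumberField K] (hK : NoInt K) (α : 𝓞 K)
    (hα : ∀ z : ℤ, α ≠ (z : 𝓞 K)) :
    (minpoly ℤ α).coeff (finrank ℚ K - 1) = - Algebra.trace ℤ (𝓞 K) α := by
  have h0 := natDegree_eq K hK α hα
  have h1 := adjoin_top K hK α hα
  have hint : IsIntegral ℚ (α : K) := Algebra.IsIntegral.isIntegral _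
  have h2 := trace_eq_trace_adjoin ℚ (α : K)
  have h3 : finrank (IntermediateField.adjoin ℚ {(α : K)}) K = 1 := by
    rw [h1]; exact IntermediateField.finrank_top
  rw [h3, one_smul] at h2
  have h4 := PowerBasis.trace_gen_eq_nextCoeff_minpoly (IntermediateField.adjoin.powerBasis hint)
  rw [IntermediateField.adjoin.powerBasis_gen, IntermediateField.minpoly_gen] at h4
  rw [h4, minpolyQ, ← Algebra.coe_trace_int] at h2
  have hpos : 0 < (minpoly ℤ α).natDegree := by rw [h0]; exact finrank_pos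
  have hmon := minpoly.monic (RingOfIntegers.isIntegral α)
  have h5 : (toQ (minpoly ℤ α)).nextCoeff = (((minpoly ℤ α).coeff (finrank ℚ K - 1) : ℤ) : ℚ) := by
    rw [nextCoeff_of_natDegree_pos]
    · unfold Pool.Agent.H7.GF.toQ
      rw [hmon.natDegree_map, coeff_map, h0]
      rfl
    · unfold Pool.Agent.H7.GF.toQ
      rw [hmon.natDegree_map]; exact hpos
  rw [h5] at h2
  have h6 : (((minpoly ℤ α).coeff (finrank ℚ K - 1) : ℤ) : ℚ) =
      ((- Algebra.trace ℤ (𝓞 K) α : ℤ) : ℚ) := by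
    push_cast
    rw [h2, neg_neg]
  exact_mod_cast h6

/-- the structure theorem -/
theorem str (hMINK : T_MINK) (hCONJ : T_CONJ) (hAN1 : T_AN1) (hAN3 : T_AN3) (hVP : T_VP)
    (hSFUL : T_SFUL) : T_STR := by
  intro n hn3 hn7
  obtain ⟨c0, hc0, hM⟩ := hMINK n (by omega)
  refine ⟨2 ^ n * max 1 c0 ^ n, by positivity, ?_⟩
  rintro f hfm hfn ⟨K, _, _, θ, hθ, hdeg, hNI⟩ hNF
  have hfin : finrank ℚ K = n := by rw [← hdeg, hfn]
  obtain ⟨α, hα, htr, hw⟩ := hM K hfin
  have hgd := natDegree_eq K hNI α hα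
  have hmon := minpoly.monic (RingOfIntegers.isIntegral α)
  have hSF : SameField f (minpoly ℤ α) := ⟨K, inferInstance, inferInstance, θ, α, hθ, rfl, hdeg, hgd⟩
  have hPF : PrimF f := ⟨K, inferInstance, inferInstance, θ, hθ, hdeg, hNI⟩
  have hDpos : 0 < (discr K).natAbs := Int.natAbs_pos.2 (NumberField.discr_ne_zero K)
  refine ⟨minpoly ℤ α, (discr K).natAbs, hDpos, hSF, ⟨K, inferInstance, inferInstance, α, rfl, hgd, rfl⟩, hmon,
    hgd.trans hfin, ?_, (hSFUL _ _ hSF).1 hNF, (hSFUL _ _ hSF).2 hPF, ?_, ?_, ?_, ?_⟩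
  · rw [← minpolyQ]
    exact minpoly.irreducible (Algebra.IsIntegral.isIntegral _)
  · have h1 := trace_coeff K hNI α hα
    rw [hfin] at h1
    rw [h1]
    push_cast
    rw [abs_neg]
    exact htr
  · intro j hj2 hjn
    set D : ℝ := ((discr K).natAbs : ℝ) with hD
    have hD0 : 0 ≤ D := Nat.cast_nonneg _
    have hT : 0 ≤ c0 * D ^ (1 / (2 * ((n : ℝ) - 1))) := by positivity
    have h1 := hCONJ n K α (c0 * D ^ (1 / (2 * ((n : ℝ) - 1)))) hfin (hgd.trans hfin) hT hw j hjn
    refine h1.trans ?_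
    rw [mul_pow, ← mul_assoc]
    have h2 : (D ^ (1 / (2 * ((n : ℝ) - 1)))) ^ j = D ^ ((j : ℝ) / (2 * ((n : ℝ) - 1))) := by
      rw [← Real.rpow_natCast, ← Real.rpow_mul hD0]
      congr 1
      ring
    rw [h2]
    refine mul_le_mul_of_nonneg_right ?_ (Real.rpow_nonneg hD0 _)
    refine mul_le_mul_of_nonneg_left ?_ (by positivity)
    calc c0 ^ j ≤ max 1 c0 ^ j := pow_le_pow_left₀ hc0.le (le_max_right _ _) _
      _ ≤ max 1 c0 ^ n := pow_le_pow_right₀ (le_max_left _ _) hjn
  · intro p hp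
    haveI := Fact.mk hp
    exact (hVP p K).2.2 (by omega)
  · intro p hp hp7 hpD
    haveI := Fact.mk hp
    have h1 := hAN1 p K θ (by rw [hθ, hdeg]) (by omega)
    have h2 := hAN1 p K α hgd.symm (by omega)
    have h3 := hAN3 p K θ (by rw [hθ, hdeg]) hNI (by rw [hθ]; exact hNF) (by omega)
    have h4 : 1 ≤ (discr K).natAbs.factorization p :=
      (hp.dvd_iff_one_le_factorization hDpos.ne').1 hpD
    rw [hθ] at h1
    exact ⟨by omega, by omega, h1.2, h2.2⟩

end Pool.Agent.H78.GF
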